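import Mathlib
import Pool.Agent.Results.MP_3554b5_lc.PowerGrowth
import Pool.Agent.Results.MP_600e55_nt.SubnormalSubgroups
import Pool.Graph.R_pool_sql_team_seeded_c8625f6e.K4H89.J.Hens

set_option autoImplicit false

/-! # MP_829a8f_lc: fields with pro-`p` absolute Galois group

Let `K` be a field with a primitive `p`-th root of unity whose algebraic closure is the compositum of
the finite Galois extensions of `K` of `p`-power degree (so `K` is perfect and its absolute Galois
group is a pro-`p` group).  Then `K` has a nontrivial henselian valuation ring, the conclusion of Q1,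
in each of the following cases:

* the absolute Galois group has a closed subnormal subgroup which is topologically finitely
  generated, not trivial and of infinite index;
* `K*/K*^p` has at least `p²` elements, `-1 ∈ K*^p`, and for some cyclic extension `E` of `K` of degree
  `p^m > 1` all norms are `p`-th powers in `E` or `|E*/E*^p| < p^([E : K] - 1) |K*/K*^p| < ∞`;
* `K*/K*^p` is finite of dimension `d(K) > 7` (`p = 2`), `d(K) > 9` (`p` odd), and for one `m` all
  extensions of degree `p^m` satisfy `d(L) - 7 < (3/2)^m (d(K) - 7)`, respectively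
  `d(L) - 9 < ((p + 3)/4)^m (d(K) - 9)`.

By the theorems on `MP_600e55_nt` the absolute Galois group is the decomposition group of a valuation
of the algebraic closure with nontrivial inertia group. The restriction to `K` is not trivial, and it
is henselian. -/

namespace Pool.Agent.Results.MP_829a8f_lc.ProPGaloisGroups

open Pool.Agent.Results.MP_3554b5_lc.SubnormalSubgroups (FieldCondition powers)
open Pool.Agent.Results.MP_3554b5_lc.PowerGrowth (SlowGrowth)
open Pool.Agent.Results.MP_600e55_nt.SubnormalSubgroups (IsMaximalPExtension IsDecompositionGroup)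

/-- a valuation ring of `K` is henselian if it is the restriction of a valuation ring of the algebraic
closure which is invariant under all automorphisms over `K` -/
theorem henselian_of_invariant {K : Type} [Field K] {O : ValuationSubring K}
    {W : ValuationSubring (AlgebraicClosure K)}
    (hW : ∀ x : K, algebraMap K (AlgebraicClosure K) x ∈ W ↔ x ∈ O)
    (hinv : ∀ (τ : AlgebraicClosure K ≃ₐ[K] AlgebraicClosure K) (x : AlgebraicClosure K),
      τ x ∈ W ↔ x ∈ W) : HenselianLocalRing O := by
  by_contra hcon
  obtain ⟨L, hL, y₀, σ₁, σ₂, -, h2, h3⟩ := Pool.Agent.K4H89.J.exists_split hW hcon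
  have hconj : IsConjRoot K (σ₁ y₀) (σ₂ y₀) := by
    have e1 : minpoly K (σ₁ y₀) = minpoly K y₀ := minpoly.algHom_eq σ₁ σ₁.injective y₀
    have e2 : minpoly K (σ₂ y₀) = minpoly K y₀ := minpoly.algHom_eq σ₂ σ₂.injective y₀
    exact e1.trans e2.symm
  obtain ⟨τ, hτ⟩ := isConjRoot_iff_exists_algEquiv.1 hconj
  have key : W.valuation (σ₁ y₀) < 1 := by
    rw [← hτ]
    by_cases h0 : σ₂ y₀ = 0
    · rw [h0, map_zero, map_zero]
      exact zero_lt_one
    · have h5 : (σ₂ y₀)⁻¹ ∉ W := by
        intro h
        have h6 : W.valuation (σ₂ y₀)⁻¹ ≤ 1 := (W.valuation_le_one_iff _).2 h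
        rw [map_inv₀] at h6
        have h7 : W.valuation (σ₂ y₀) ≠ 0 := (Valuation.ne_zero_iff _).2 h0
        have h8 : (1 : W.ValueGroup) ≤ W.valuation (σ₂ y₀) := (inv_le_one₀ (zero_lt_iff.2 h7)).1 h6
        exact absurd h3 (not_lt.2 h8)
      have h9 : (τ (σ₂ y₀))⁻¹ ∉ W := by
        intro h
        rw [← map_inv₀] at h
        exact h5 ((hinv τ _).1 h)
      by_contra hge
      apply h9
      rw [← W.valuation_le_one_iff, map_inv₀]
      exact inv_le_one_of_one_le₀ (not_lt.1 hge)
  have h10 : W.valuation (σ₁ y₀ - (σ₁ y₀ - 1)) < 1 :=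
    lt_of_le_of_lt (Valuation.map_sub _ _ _) (max_lt key h2)
  rw [sub_sub_cancel, map_one] at h10
  exact lt_irrefl _ h10

/-- the restriction of a valuation with decomposition group `⊤` and nontrivial inertia group -/
theorem henselian_of_decomposition {K : Type} [Field K]
    (h : IsDecompositionGroup (⊤ : Subgroup (↥(⊤ : IntermediateField K (AlgebraicClosure K)) ≃ₐ[K]
      ↥(⊤ : IntermediateField K (AlgebraicClosure K))))) :
    ∃ O : ValuationSubring K, O ≠ ⊤ ∧ HenselianLocalRing O := by
  obtain ⟨Γ, _, w, hw, σ, -, hσ, hin⟩ := h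
  have hV : ∀ (τ : ↥(⊤ : IntermediateField K (AlgebraicClosure K)) ≃ₐ[K]
      ↥(⊤ : IntermediateField K (AlgebraicClosure K))) x,
      τ x ∈ w.valuationSubring ↔ x ∈ w.valuationSubring := fun τ x => (hw τ).1 trivial x
  set V := w.valuationSubring with hVdef
  refine ⟨V.comap (algebraMap K _), ?_, ?_⟩
  · intro htop
    have hall : ∀ x : ↥(⊤ : IntermediateField K (AlgebraicClosure K)), x ∈ V := by
      intro x
      let S : Subalgebra K ↥(⊤ : IntermediateField K (AlgebraicClosure K)) :=
        { V.toSubring with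
          algebraMap_mem' := fun r => by
            have h1 : r ∈ V.comap (algebraMap K _) := by
              rw [htop]
              trivial
            exact h1 }
      have hS : IsField S := Subalgebra.isField_of_algebraic S
      rcases V.mem_or_inv_mem x with h | h
      · exact h
      by_cases hx : x = 0
      · rw [hx]
        exact V.zero_mem
      obtain ⟨y, hy⟩ := hS.mul_inv_cancel (a := (⟨x⁻¹, h⟩ : S)) (by
        intro h0
        exact hx (inv_eq_zero.1 (congrArg Subtype.val h0)))
      have h1 : x⁻¹ * (y : ↥(⊤ : IntermediateField K (AlgebraicClosure K))) = 1 :=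
        congrArg Subtype.val hy
      have h2 : (y : ↥(⊤ : IntermediateField K (AlgebraicClosure K))) = x := by
        rw [inv_mul_eq_one₀ hx] at h1
        exact h1.symm
      rw [← h2]
      exact y.2
    obtain ⟨x, hx⟩ : ∃ x, σ x ≠ x := by
      by_contra hcon
      push Not at hcon
      exact hσ (AlgEquiv.ext hcon)
    have h1 : w (σ x - x) < 1 := hin x (hall x)
    have h2 : w (σ x - x)⁻¹ ≤ 1 := hall _
    rw [map_inv₀] at h2
    have h3 : w (σ x - x) ≠ 0 := (Valuation.ne_zero_iff _).2 (sub_ne_zero.2 hx)
    exact absurd h1 (not_lt.2 ((inv_le_one₀ (zero_lt_iff.2 h3)).1 h2))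
  · let e := (IntermediateField.topEquiv (F := K) (E := AlgebraicClosure K))
    refine henselian_of_invariant (W := V.comap (e.symm : AlgebraicClosure K →+* _)) ?_ ?_
    · intro x
      show e.symm (algebraMap K (AlgebraicClosure K) x) ∈ V ↔ algebraMap K _ x ∈ V
      rw [AlgEquiv.commutes]
    · intro τ x
      show e.symm (τ x) ∈ V ↔ e.symm x ∈ V
      have h1 := hV ((e.trans τ).trans e.symm) (e.symm x)
      simpa using h1

theorem result (p : ℕ) (hp : p.Prime) (K : Type) [Field K] (hζ : ∃ ζ : K, IsPrimitiveRoot ζ p)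
    -- the absolute Galois group is a pro-`p` group, and `K` is perfect
    (hpro : IsMaximalPExtension p (⊤ : IntermediateField K (AlgebraicClosure K)))
    (h : FieldCondition p K ∨ ((powers K p).index ≠ 0 ∧
      ∃ m : ℕ, (p = 2 ∧ SlowGrowth 2 2 3 7 m K) ∨ (p ≠ 2 ∧ SlowGrowth p 4 (p + 3) 9 m K))) :
    ∃ O : ValuationSubring K, O ≠ ⊤ ∧ HenselianLocalRing O := by
  have hfact : Fact p.Prime := ⟨hp⟩
  obtain ⟨O, hO⟩ : ∃ O : ValuationSubring K,
      Pool.Agent.Results.MP_600e55_nt.SubnormalSubgroups.IsCompatible p O := by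
    rcases h with h | ⟨hfin, h⟩
    · obtain ⟨-, O, hO, hne⟩ :=
        Pool.Agent.Results.MP_3554b5_lc.SubnormalSubgroups.good_of_field hp h
      exact ⟨O, hO.1, hO.2.2, hne⟩
    · obtain ⟨hp2, hodd⟩ := Pool.Agent.Results.MP_600e55_nt.PowerGrowth.result p K hζ hfin
      have key : Pool.Agent.Results.MP_600e55_nt.PowerGrowth.IsValued p K := by
        obtain ⟨m, ⟨h2, hd, hs⟩ | ⟨h2, hd, hs⟩⟩ := h
        · subst h2
          refine (hp2 rfl hd).resolve_right fun hg => ?_
          obtain ⟨L, hL, hL2, hL3⟩ := hg m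
          exact absurd (hs L hL hL2) (not_lt.2 hL3)
        · refine (hodd h2 hd).resolve_right fun hg => ?_
          obtain ⟨L, hL, hL2, hL3⟩ := hg m
          exact absurd (hs L hL hL2) (not_lt.2 hL3)
      obtain ⟨⟨O, hO⟩, -⟩ := key
      exact ⟨O, hO.inv_mem, hO.one_add, hO.ne_top⟩
  exact henselian_of_decomposition
    (Pool.Agent.Results.MP_600e55_nt.SubnormalSubgroups.galois_of_compatible p K hζ ⟨O, hO⟩ ⊤
      hpro).1

end Pool.Agent.Results.MP_829a8f_lc.ProPGaloisGroups
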